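import Pool.Agent.Work.MP_def58e_co.BarlowCount

namespace Pool.Agent.Results.MP_def58e_co.BarlowMin

open MPdef58e

/-- The minimum lower density of the eleven-neighbour packings contained in a Barlow packing
(any stacking sequence, any isometric position) is `12/13` times `π/√18`; it is attained inside
the face-centred cubic packing, and it bounds the minimum density of all eleven-neighbour
packings from above. -/
theorem result :
    (∃ C : Set E3, C ⊆ barlow (fun n => n) ∧ IsNeighbourPacking 11 C ∧
      lowerDensity C = 12 / 13 * (Real.pi / Real.sqrt 18)) ∧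
    (∀ τ : ℤ → ℤ, IsStacking τ → ∀ g : E3 ≃ᵢ E3, ∀ C : Set E3, C ⊆ g '' barlow τ →
      IsNeighbourPacking 11 C → 12 / 13 * (Real.pi / Real.sqrt 18) ≤ lowerDensity C) ∧
    minDensity 11 ≤ 12 / 13 * (Real.pi / Real.sqrt 18) :=
  ⟨⟨thin, thin_sub, thin_packing, thin_density⟩,
    fun _ hτ g _ hsub hC => barlow_lower hτ g hsub hC, min_le⟩

end Pool.Agent.Results.MP_def58e_co.BarlowMin
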